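import Mathlib

/-! A Bessel inequality for families of approximate eigenvectors. -/

set_option autoImplicit false

open scoped BigOperators InnerProductSpace

namespace Pool.Agent.Y662.PK

section abs

variable {E : Type*} [NormedAddCommGroup E] [InnerProductSpace ℂ E]

theorem im_self (A : E →ₗ[ℂ] E) (hA : ∀ u v, ⟪A u, v⟫_ℂ = ⟪u, A v⟫_ℂ) (v : E) :
    (⟪A v, v⟫_ℂ).im = 0 := by
  have h1 := congrArg Complex.im (hA v v)
  have h2 := congrArg Complex.im (inner_conj_symm (𝕜 := ℂ) (A v) v)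
  rw [Complex.conj_im] at h2
  linarith

theorem res_im (A : E →ₗ[ℂ] E) (hA : ∀ u v, ⟪A u, v⟫_ℂ = ⟪u, A v⟫_ℂ) (e η : ℝ) (g f : E)
    (hg : A g - ((e : ℂ) + (η : ℂ) * Complex.I) • g = f) : (⟪f, g⟫_ℂ).im = η * ‖g‖ ^ 2 := by
  rw [← hg, inner_sub_left, inner_smul_left, Complex.sub_im, im_self A hA g,
    inner_self_eq_norm_sq_to_K]
  simp [← Complex.ofReal_pow]

theorem res_le (A : E →ₗ[ℂ] E) (hA : ∀ u v, ⟪A u, v⟫_ℂ = ⟪u, A v⟫_ℂ) (e η : ℝ) (hη : 0 ≤ η)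
    (g f v : E) (hg : A g - ((e : ℂ) + (η : ℂ) * Complex.I) • g = f)
    (hv : ‖A v - (e : ℂ) • v‖ ≤ η * ‖v‖) :
    ‖⟪f, v⟫_ℂ‖ ^ 2 ≤ 2 * η * (⟪f, g⟫_ℂ).im * ‖v‖ ^ 2 := by
  have h1 : ⟪f, v⟫_ℂ = ⟪g, (A v - (e : ℂ) • v) + ((η : ℂ) * Complex.I) • v⟫_ℂ := by
    rw [← hg, inner_sub_left, inner_smul_left, hA, inner_add_right, inner_sub_right,
      inner_smul_right, inner_smul_right]
    simp only [map_add, map_mul, Complex.conj_ofReal, Complex.conj_I]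
    ring
  have h2 : ‖(A v - (e : ℂ) • v) + ((η : ℂ) * Complex.I) • v‖ ^ 2 ≤ 2 * η ^ 2 * ‖v‖ ^ 2 := by
    have h3 := norm_add_sq (𝕜 := ℂ) (A v - (e : ℂ) • v) (((η : ℂ) * Complex.I) • v)
    have h4 : RCLike.re ⟪A v - (e : ℂ) • v, ((η : ℂ) * Complex.I) • v⟫_ℂ = 0 := by
      rw [inner_smul_right, inner_sub_left, inner_smul_left, inner_self_eq_norm_sq_to_K]
      have h5 := im_self A hA v
      simp [← Complex.ofReal_pow, h5]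
    rw [h4] at h3
    have h6 : ‖((η : ℂ) * Complex.I) • v‖ ^ 2 = η ^ 2 * ‖v‖ ^ 2 := by
      rw [norm_smul, norm_mul, Complex.norm_I, Complex.norm_real, Real.norm_eq_abs, mul_one,
        mul_pow, sq_abs]
    rw [h3, h6]
    have h7 : ‖A v - (e : ℂ) • v‖ ^ 2 ≤ (η * ‖v‖) ^ 2 := by gcongr
    nlinarith
  rw [res_im A hA e η g f hg, h1]
  calc _ ≤ (‖g‖ * ‖(A v - (e : ℂ) • v) + ((η : ℂ) * Complex.I) • v‖) ^ 2 := by
        gcongr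
        exact norm_inner_le_norm _ _
    _ = ‖g‖ ^ 2 * ‖(A v - (e : ℂ) • v) + ((η : ℂ) * Complex.I) • v‖ ^ 2 := by ring
    _ ≤ ‖g‖ ^ 2 * (2 * η ^ 2 * ‖v‖ ^ 2) := by gcongr
    _ = _ := by ring

/-- **Bessel's inequality** for approximate eigenvectors -/
theorem bessel (A : E →ₗ[ℂ] E) (hA : ∀ u v, ⟪A u, v⟫_ℂ = ⟪u, A v⟫_ℂ) (e η : ℝ) (hη : 0 ≤ η)
    (g f : E) (hg : A g - ((e : ℂ) + (η : ℂ) * Complex.I) • g = f) {J : Type*} [Fintype J]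
    (u : J → E) (hu : Orthonormal ℂ u)
    (hn : ∀ c : J → ℂ, ‖A (∑ j, c j • u j) - (e : ℂ) • ∑ j, c j • u j‖ ≤
      η * ‖∑ j, c j • u j‖) :
    ∑ j, ‖⟪f, u j⟫_ℂ‖ ^ 2 ≤ 2 * η * (⟪f, g⟫_ℂ).im := by
  obtain ⟨s, hs⟩ : ∃ s : ℝ, s = ∑ j, ‖⟪f, u j⟫_ℂ‖ ^ 2 := ⟨_, rfl⟩
  obtain ⟨c, hc⟩ : ∃ c : J → ℂ, c = fun j => (starRingEnd ℂ) ⟪f, u j⟫_ℂ := ⟨_, rfl⟩
  have h1 : ⟪f, ∑ j, c j • u j⟫_ℂ = (s : ℂ) := by
    rw [inner_sum, hs]
    push_cast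
    refine Finset.sum_congr rfl fun j _ => ?_
    rw [inner_smul_right, hc]
    simp only
    rw [← Complex.normSq_eq_conj_mul_self, Complex.normSq_eq_norm_sq]
    push_cast
    ring
  have h2 : ‖∑ j, c j • u j‖ ^ 2 = s := by
    have h3 : ((‖∑ j, c j • u j‖ ^ 2 : ℝ) : ℂ) = (s : ℂ) := by
      have h4 := inner_self_eq_norm_sq_to_K (𝕜 := ℂ) (∑ j, c j • u j)
      rw [sum_inner] at h4
      have h5 : ∀ j, ⟪c j • u j, ∑ k, c k • u k⟫_ℂ = ((‖⟪f, u j⟫_ℂ‖ ^ 2 : ℝ) : ℂ) := by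
        intro j
        rw [inner_smul_left, hu.inner_right_fintype, hc]
        simp only [Complex.conj_conj]
        rw [mul_comm, ← Complex.normSq_eq_conj_mul_self, Complex.normSq_eq_norm_sq]
      rw [Finset.sum_congr rfl fun j _ => h5 j, ← Complex.ofReal_sum, ← hs] at h4
      rw [h4]
      simp
    exact_mod_cast h3
  have h3 := res_le A hA e η hη g f (∑ j, c j • u j) hg (hn c)
  rw [h1, h2] at h3
  rw [← hs]
  have h4 : ‖(s : ℂ)‖ ^ 2 = s * s := by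
    rw [Complex.norm_real, Real.norm_eq_abs, sq_abs]
    ring
  rw [h4] at h3
  have h5 : 0 ≤ s := by
    rw [hs]
    positivity
  rcases h5.eq_or_lt with h | h
  · rw [← h, res_im A hA e η g f hg]
    positivity
  · exact le_of_mul_le_mul_right h3 h

end abs

end Pool.Agent.Y662.PK
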