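import Mathlib

/-! Counting the members of a family that are concentrated on thin sets. -/

set_option autoImplicit false

open scoped BigOperators

namespace Pool.Agent.Y662.PK

theorem sub_cells {d : ℕ} (Λ Q : Finset (Fin d → ℤ)) (hQ : Q ⊆ Λ) (R : ℝ) (hR : 0 < R) (i : Fin d)
    (hw : ∀ x ∈ Q, ∀ y ∈ Q, |(x i : ℝ) - y i| ≤ R) (f : (Fin d → ℤ) → ℝ) (hf : ∀ x, 0 ≤ f x)
    (ε : ℝ) (hε : ε ≤ ∑ x ∈ Q, f x) (hε0 : 0 < ε) :
    ∃ m ∈ Λ.image (fun x => ⌊(x i : ℝ) / R⌋),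
      ε / 2 ≤ ∑ x ∈ Λ.filter (fun x => ⌊(x i : ℝ) / R⌋ = m), f x := by
  classical
  have hne : Q.Nonempty := by
    rw [Finset.nonempty_iff_ne_empty]
    intro h
    rw [h, Finset.sum_empty] at hε
    linarith
  obtain ⟨x0, hx0, hmin⟩ := Finset.exists_min_image Q (fun x => x i) hne
  obtain ⟨k, hk⟩ : ∃ k : ℤ, k = ⌊(x0 i : ℝ) / R⌋ := ⟨_, rfl⟩
  have hcell : ∀ x ∈ Q, ⌊(x i : ℝ) / R⌋ = k ∨ ⌊(x i : ℝ) / R⌋ = k + 1 := by
    intro x hx
    have h1 : (x0 i : ℝ) / R ≤ (x i : ℝ) / R := by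
      have := hmin x hx
      have h2 : (x0 i : ℝ) ≤ x i := by exact_mod_cast this
      gcongr
    have h2 : (x i : ℝ) / R ≤ (x0 i : ℝ) / R + 1 := by
      have h3 := (abs_le.1 (hw x hx x0 hx0)).2
      rw [div_add_one hR.ne', div_le_div_iff_of_pos_right hR]
      linarith
    have h3 := Int.floor_le_floor h1
    have h4 := Int.floor_le_floor h2
    rw [Int.floor_add_one] at h4
    rw [← hk] at h3 h4
    omega
  have hsub : ∑ x ∈ Q, f x ≤ ∑ x ∈ Λ.filter (fun x => ⌊(x i : ℝ) / R⌋ = k), f x +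
      ∑ x ∈ Λ.filter (fun x => ⌊(x i : ℝ) / R⌋ = k + 1), f x := by
    rw [← Finset.sum_union]
    · refine Finset.sum_le_sum_of_subset_of_nonneg (fun x hx => ?_) fun x _ _ => hf x
      rw [Finset.mem_union, Finset.mem_filter, Finset.mem_filter]
      rcases hcell x hx with h | h
      · exact Or.inl ⟨hQ hx, h⟩
      · exact Or.inr ⟨hQ hx, h⟩
    · rw [Finset.disjoint_filter]
      intro x _ h1 h2
      omega
  have hmem : ∀ m : ℤ, ε / 2 ≤ ∑ x ∈ Λ.filter (fun x => ⌊(x i : ℝ) / R⌋ = m), f x →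
      m ∈ Λ.image (fun x => ⌊(x i : ℝ) / R⌋) := by
    intro m hm
    by_contra hcon
    have h1 : Λ.filter (fun x => ⌊(x i : ℝ) / R⌋ = m) = ∅ := by
      rw [Finset.filter_eq_empty_iff]
      intro x hx h2
      exact hcon (Finset.mem_image.2 ⟨x, hx, h2⟩)
    rw [h1, Finset.sum_empty] at hm
    linarith
  by_cases h1 : ε / 2 ≤ ∑ x ∈ Λ.filter (fun x => ⌊(x i : ℝ) / R⌋ = k), f x
  · exact ⟨k, hmem k h1, h1⟩
  · have h2 : ε / 2 ≤ ∑ x ∈ Λ.filter (fun x => ⌊(x i : ℝ) / R⌋ = k + 1), f x := by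
      push Not at h1
      linarith
    exact ⟨k + 1, hmem _ h2, h2⟩

theorem count {d n : ℕ} (Λ : Finset (Fin d → ℤ)) (f : Fin n → (Fin d → ℤ) → ℝ)
    (hf : ∀ j x, 0 ≤ f j x) (ε R δ : ℝ) (hε : 0 < ε) (hR : 0 < R)
    (hcell : ∀ (i : Fin d) (Q : Finset (Fin d → ℤ)), Q ⊆ Λ →
      (∀ x ∈ Q, ∀ y ∈ Q, |(x i : ℝ) - y i| ≤ R) →
      ∑ j, (∑ x ∈ Q, f j x) ^ 2 ≤ δ * Q.card)
    (hloc : ∀ j, ∃ i : Fin d, ∃ Q ⊆ Λ, (∀ x ∈ Q, ∀ y ∈ Q, |(x i : ℝ) - y i| ≤ R) ∧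
      ε ≤ ∑ x ∈ Q, f j x) :
    (n : ℝ) * ε ^ 2 ≤ 4 * d * δ * Λ.card := by
  classical
  obtain ⟨T, hT⟩ : ∃ T : Fin d → (Fin d → ℤ) → ℤ, T = fun i x => ⌊(x i : ℝ) / R⌋ := ⟨_, rfl⟩
  have h1 : ∀ j, (ε / 2) ^ 2 ≤
      ∑ i, ∑ m ∈ Λ.image (T i), (∑ x ∈ Λ.filter (fun x => T i x = m), f j x) ^ 2 := by
    intro j
    obtain ⟨i, Q, hQ, hw, hm⟩ := hloc j
    obtain ⟨m, hm1, hm2⟩ := sub_cells Λ Q hQ R hR i hw (f j) (hf j) ε hm hε
    have h2 : (ε / 2) ^ 2 ≤ (∑ x ∈ Λ.filter (fun x => T i x = m), f j x) ^ 2 := by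
      rw [hT]
      gcongr
    refine h2.trans ?_
    have h3 : (∑ x ∈ Λ.filter (fun x => T i x = m), f j x) ^ 2 ≤
        ∑ m ∈ Λ.image (T i), (∑ x ∈ Λ.filter (fun x => T i x = m), f j x) ^ 2 :=
      Finset.single_le_sum (f := fun m => (∑ x ∈ Λ.filter (fun x => T i x = m), f j x) ^ 2)
        (fun m _ => sq_nonneg _) (by rw [hT]; exact hm1)
    refine h3.trans ?_
    exact Finset.single_le_sum (f := fun i => ∑ m ∈ Λ.image (T i),
      (∑ x ∈ Λ.filter (fun x => T i x = m), f j x) ^ 2)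
      (fun i _ => Finset.sum_nonneg fun m _ => sq_nonneg _) (Finset.mem_univ i)
  have h2 : (n : ℝ) * (ε / 2) ^ 2 ≤ ∑ j : Fin n,
      ∑ i, ∑ m ∈ Λ.image (T i), (∑ x ∈ Λ.filter (fun x => T i x = m), f j x) ^ 2 := by
    have h3 := Finset.sum_le_sum (s := Finset.univ) fun j (_ : j ∈ Finset.univ) => h1 j
    rw [Finset.sum_const, Finset.card_univ, Fintype.card_fin, nsmul_eq_mul] at h3
    exact h3
  have h3 : ∑ j : Fin n, ∑ i, ∑ m ∈ Λ.image (T i),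
      (∑ x ∈ Λ.filter (fun x => T i x = m), f j x) ^ 2 ≤ d * (δ * Λ.card) := by
    rw [Finset.sum_comm]
    have h4 : ∀ i ∈ (Finset.univ : Finset (Fin d)), ∑ j : Fin n, ∑ m ∈ Λ.image (T i),
        (∑ x ∈ Λ.filter (fun x => T i x = m), f j x) ^ 2 ≤ δ * Λ.card := by
      intro i _
      rw [Finset.sum_comm]
      have h5 : ∀ m ∈ Λ.image (T i), ∑ j : Fin n,
          (∑ x ∈ Λ.filter (fun x => T i x = m), f j x) ^ 2 ≤
          δ * (Λ.filter (fun x => T i x = m)).card := by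
        intro m _
        refine hcell i _ (Finset.filter_subset _ _) fun x hx y hy => ?_
        have hx' := (Finset.mem_filter.1 hx).2
        have hy' := (Finset.mem_filter.1 hy).2
        rw [hT] at hx' hy'
        simp only at hx' hy'
        rw [Int.floor_eq_iff] at hx' hy'
        obtain ⟨a1, a2⟩ := hx'
        obtain ⟨b1, b2⟩ := hy'
        rw [le_div_iff₀ hR] at a1 b1
        rw [div_lt_iff₀ hR] at a2 b2
        rw [abs_le]
        constructor <;> nlinarith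
      refine (Finset.sum_le_sum h5).trans (le_of_eq ?_)
      rw [← Finset.mul_sum]
      congr 1
      have h6 := Finset.card_eq_sum_card_image (T i) Λ
      rw [h6]
      push_cast
      rfl
    refine (Finset.sum_le_sum h4).trans (le_of_eq ?_)
    rw [Finset.sum_const, Finset.card_univ, Fintype.card_fin, nsmul_eq_mul]
  have h4 := h2.trans h3
  nlinarith

end Pool.Agent.Y662.PK
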