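import Pool.Agent.TH794.QE.FinA
import Pool.Agent.Y662.PK.Bes

/-! Families of approximate eigenvectors of a lattice Schrodinger operator and the Green function. -/

set_option autoImplicit false

open scoped BigOperators InnerProductSpace

namespace Pool.Agent.Y662.PK

open Pool.Agent.W788.LD.Spec (S)
open Pool.Agent.H4R2.LO (Zd)
open Pool.Agent.TH794.QD (HS hmk hmk_apply Hop Hop_apply Hop_symm hs_sum)
open Pool.Agent.TH794.QE (Rs)

variable {d : ℕ}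

/-- the unit vector at `a` -/
noncomputable def dl (a : Zd d) : HS d := lp.single (E := fun _ : Zd d => ℂ) 2 a (1 : ℂ)

theorem inner_dl (a : Zd d) (u : HS d) : ⟪dl a, u⟫_ℂ = u a := by
  unfold dl
  rw [lp.inner_single_left]
  simp

theorem dl_apply (a x : Zd d) : dl a x = if x = a then 1 else 0 := by
  unfold dl
  rw [lp.single_apply]
  by_cases h : x = a
  · subst h
    simp
  · rw [if_neg h, Pi.single_eq_of_ne h]

theorem green_eq (V : Zd d → ℝ) (B : ℝ) (hB : 0 ≤ B) (hV : ∀ x, |V x| ≤ B) (a : Zd d) (e η : ℝ)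
    (u : Zd d → ℂ) (hu : Rs d V a e η u) :
    (Hop V B hB hV : HS d →ₗ[ℂ] HS d) (hmk u hu.sq) -
      ((e : ℂ) + (η : ℂ) * Complex.I) • hmk u hu.sq = dl a := by
  apply lp.ext
  funext x
  have h1 : ((Hop V B hB hV : HS d →ₗ[ℂ] HS d) (hmk u hu.sq) -
      ((e : ℂ) + (η : ℂ) * Complex.I) • hmk u hu.sq : HS d) x =
      Hop V B hB hV (hmk u hu.sq) x - ((e : ℂ) + (η : ℂ) * Complex.I) * hmk u hu.sq x := rfl
  rw [h1, Hop_apply, dl_apply]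
  exact hu.eq x

theorem cs_fin {ι : Type*} (s : Finset ι) (f g : ι → ℂ) :
    ‖∑ x ∈ s, f x * g x‖ ^ 2 ≤ (∑ x ∈ s, ‖f x‖ ^ 2) * ∑ x ∈ s, ‖g x‖ ^ 2 := by
  have h1 : ‖∑ x ∈ s, f x * g x‖ ≤ ∑ x ∈ s, ‖f x‖ * ‖g x‖ :=
    (norm_sum_le _ _).trans (Finset.sum_le_sum fun x _ => (norm_mul _ _).le)
  refine (pow_le_pow_left₀ (norm_nonneg _) h1 2).trans ?_
  exact Finset.sum_mul_sq_le_sq_mul_sq s _ _

/-- **the fourth moment bound** -/
theorem window (V : Zd d → ℝ) (B : ℝ) (hB : 0 ≤ B) (hV : ∀ x, |V x| ≤ B) (e η : ℝ) (hη : 0 ≤ η)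
    {J : Type*} [Fintype J] (u : J → HS d) (hu : Orthonormal ℂ u)
    (hn : ∀ c : J → ℂ, ‖(Hop V B hB hV : HS d →ₗ[ℂ] HS d) (∑ j, c j • u j) -
      (e : ℂ) • ∑ j, c j • u j‖ ≤ η * ‖∑ j, c j • u j‖)
    (Q : Finset (Zd d)) (G : Zd d → Zd d → ℂ) (hG : ∀ a, Rs d V a e η (G a)) :
    ∑ j, (∑ x ∈ Q, ‖u j x‖ ^ 2) ^ 2 ≤ 4 * η ^ 2 * ∑ a ∈ Q, ∑ x ∈ Q, ‖G a x‖ ^ 2 := by
  classical
  obtain ⟨P, hP⟩ : ∃ P : J → J → ℂ,
      P = fun k j => ∑ x ∈ Q, (starRingEnd ℂ) (u k x) * u j x := ⟨_, rfl⟩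
  obtain ⟨b, hb⟩ : ∃ b : Zd d → Zd d → ℂ,
      b = fun x a => ∑ k, (starRingEnd ℂ) (u k x) * u k a := ⟨_, rfl⟩
  obtain ⟨T, hT⟩ : ∃ T : ℝ, T = ∑ k, ∑ j, ‖P k j‖ ^ 2 := ⟨_, rfl⟩
  obtain ⟨Γ, hΓ⟩ : ∃ Γ : ℝ, Γ = ∑ a ∈ Q, ∑ x ∈ Q, ‖G a x‖ ^ 2 := ⟨_, rfl⟩
  have hT0 : 0 ≤ T := by rw [hT]; positivity
  have hΓ0 : 0 ≤ Γ := by rw [hΓ]; positivity
  have hA : ∀ w v : HS d, ⟪(Hop V B hB hV : HS d →ₗ[ℂ] HS d) w, v⟫_ℂ =
      ⟪w, (Hop V B hB hV : HS d →ₗ[ℂ] HS d) v⟫_ℂ := fun w v => Hop_symm V B hB hV w v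
  -- Bessel for the restriction of `u k`
  have h1 : ∀ k, ∑ j, ‖P k j‖ ^ 2 ≤
      2 * η * (∑ x ∈ Q, ∑ a ∈ Q, (starRingEnd ℂ) (u k x) * u k a * G a x).im := by
    intro k
    have h2 := bessel (Hop V B hB hV : HS d →ₗ[ℂ] HS d) hA e η hη
      (∑ a ∈ Q, u k a • hmk (G a) (hG a).sq) (∑ a ∈ Q, u k a • dl a) (by
        rw [map_sum, Finset.smul_sum, ← Finset.sum_sub_distrib]
        refine Finset.sum_congr rfl fun a _ => ?_
        rw [map_smul, smul_comm, ← smul_sub, green_eq V B hB hV a e η (G a) (hG a)]) u hu hn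
    have h3 : ∀ j, ⟪∑ a ∈ Q, u k a • dl a, u j⟫_ℂ = P k j := by
      intro j
      rw [sum_inner, hP]
      refine Finset.sum_congr rfl fun a _ => ?_
      rw [inner_smul_left, inner_dl]
    have h4 : ⟪∑ a ∈ Q, u k a • dl a, ∑ a ∈ Q, u k a • hmk (G a) (hG a).sq⟫_ℂ =
        ∑ x ∈ Q, ∑ a ∈ Q, (starRingEnd ℂ) (u k x) * u k a * G a x := by
      rw [sum_inner]
      refine Finset.sum_congr rfl fun x _ => ?_
      rw [inner_sum]
      refine Finset.sum_congr rfl fun a _ => ?_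
      rw [inner_smul_left, inner_smul_right, inner_dl, hmk_apply]
      ring
    rw [h4] at h2
    simpa only [h3] using h2
  have h2 : T ≤ 2 * η * (∑ x ∈ Q, ∑ a ∈ Q, b x a * G a x).im := by
    rw [hT]
    refine (Finset.sum_le_sum fun k _ => h1 k).trans (le_of_eq ?_)
    rw [← Finset.mul_sum, ← Complex.im_sum, Finset.sum_comm]
    congr 2
    refine Finset.sum_congr rfl fun x _ => ?_
    rw [Finset.sum_comm]
    refine Finset.sum_congr rfl fun a _ => ?_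
    rw [hb, Finset.sum_mul]
  have h3 : ((∑ x ∈ Q, ∑ a ∈ Q, ‖b x a‖ ^ 2 : ℝ) : ℂ) = ((T : ℝ) : ℂ) := by
    have hn : ∀ z : ℂ, ((‖z‖ ^ 2 : ℝ) : ℂ) = z * (starRingEnd ℂ) z := by
      intro z
      rw [Complex.mul_conj, Complex.normSq_eq_norm_sq]
    rw [hT]
    simp only [Complex.ofReal_sum, hn, hb, hP, map_sum, map_mul, Complex.conj_conj]
    simp only [Finset.sum_mul_sum]
    calc ∑ x ∈ Q, ∑ a ∈ Q, ∑ i, ∑ j, (starRingEnd ℂ) (u i x) * u i a *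
          (u j x * (starRingEnd ℂ) (u j a)) =
          ∑ x ∈ Q, ∑ i, ∑ a ∈ Q, ∑ j, (starRingEnd ℂ) (u i x) * u i a *
          (u j x * (starRingEnd ℂ) (u j a)) :=
          Finset.sum_congr rfl fun x _ => Finset.sum_comm
      _ = ∑ i, ∑ x ∈ Q, ∑ a ∈ Q, ∑ j, (starRingEnd ℂ) (u i x) * u i a *
          (u j x * (starRingEnd ℂ) (u j a)) := Finset.sum_comm
      _ = ∑ i, ∑ x ∈ Q, ∑ j, ∑ a ∈ Q, (starRingEnd ℂ) (u i x) * u i a *
          (u j x * (starRingEnd ℂ) (u j a)) :=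
          Finset.sum_congr rfl fun i _ => Finset.sum_congr rfl fun x _ => Finset.sum_comm
      _ = ∑ i, ∑ j, ∑ x ∈ Q, ∑ a ∈ Q, (starRingEnd ℂ) (u i x) * u i a *
          (u j x * (starRingEnd ℂ) (u j a)) :=
          Finset.sum_congr rfl fun i _ => Finset.sum_comm
      _ = _ := Finset.sum_congr rfl fun i _ => Finset.sum_congr rfl fun j _ =>
          Finset.sum_congr rfl fun x _ => Finset.sum_congr rfl fun a _ => by ring
  have h4 : ∑ x ∈ Q, ∑ a ∈ Q, ‖b x a‖ ^ 2 = T := by exact_mod_cast h3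
  have h5 : ‖∑ x ∈ Q, ∑ a ∈ Q, b x a * G a x‖ ^ 2 ≤ T * Γ := by
    have h6 := cs_fin (Q ×ˢ Q) (fun p => b p.1 p.2) (fun p => G p.2 p.1)
    rw [Finset.sum_product, Finset.sum_product, Finset.sum_product, h4] at h6
    refine h6.trans (le_of_eq ?_)
    rw [hΓ, Finset.sum_comm (s := Q) (t := Q)]
  have h6 : T ≤ 4 * η ^ 2 * Γ := by
    rcases hT0.eq_or_lt with h | h
    · rw [← h]
      positivity
    · have h7 : T ≤ 2 * η * ‖∑ x ∈ Q, ∑ a ∈ Q, b x a * G a x‖ := by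
        refine h2.trans ?_
        gcongr
        exact Complex.im_le_norm _
      have h8 : T * T ≤ T * (4 * η ^ 2 * Γ) := by
        calc T * T = T ^ 2 := by ring
          _ ≤ (2 * η * ‖∑ x ∈ Q, ∑ a ∈ Q, b x a * G a x‖) ^ 2 := by gcongr
          _ = 4 * η ^ 2 * ‖∑ x ∈ Q, ∑ a ∈ Q, b x a * G a x‖ ^ 2 := by ring
          _ ≤ 4 * η ^ 2 * (T * Γ) := by gcongr
          _ = _ := by ring
      exact le_of_mul_le_mul_left h8 h
  rw [← hΓ]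
  refine le_trans ?_ h6
  rw [hT]
  refine Finset.sum_le_sum fun j _ => ?_
  have h7 : (∑ x ∈ Q, ‖u j x‖ ^ 2) ^ 2 = ‖P j j‖ ^ 2 := by
    have h8 : P j j = ((∑ x ∈ Q, ‖u j x‖ ^ 2 : ℝ) : ℂ) := by
      rw [hP]
      push_cast
      refine Finset.sum_congr rfl fun x _ => ?_
      rw [← Complex.normSq_eq_conj_mul_self, Complex.normSq_eq_norm_sq]
      push_cast
      ring
    rw [h8, Complex.norm_real, Real.norm_eq_abs, sq_abs]
  rw [h7]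
  exact Finset.single_le_sum (f := fun i => ‖P j i‖ ^ 2) (fun i _ => by positivity)
    (Finset.mem_univ j)

/-- **the mass of a slab** from the characteristic function -/
theorem slab (u : Zd d → ℂ) (hu : Summable fun x => ‖u x‖ ^ 2) (θ : Zd d → ℝ) (η : ℝ)
    (hη : 0 ≤ η) (n : ℕ) (hn : 0 < n) (P0 P1 : ℝ) (hP1 : 0 ≤ P1)
    (h0 : η * ∑' x, ‖u x‖ ^ 2 ≤ P0)
    (h1 : ∀ k l : ℕ, k < n → l < n → k ≠ l →
      ‖(η : ℂ) * ∑' x, Complex.exp (Complex.I * ((((k : ℝ) - l) * θ x : ℝ) : ℂ)) *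
        ((‖u x‖ ^ 2 : ℝ) : ℂ)‖ ≤ P1)
    (Q : Finset (Zd d)) (hQ : ∀ x ∈ Q, n * |θ x| ≤ 1 / 2) :
    η * ∑ x ∈ Q, ‖u x‖ ^ 2 ≤ 4 * (P0 / n + P1) := by
  have hn0 : (0 : ℝ) < n := by exact_mod_cast hn
  obtain ⟨F, hF⟩ : ∃ F : Zd d → ℂ, F = fun x =>
      ∑ k ∈ Finset.range n, Complex.exp (Complex.I * (((k : ℝ) * θ x : ℝ) : ℂ)) := ⟨_, rfl⟩
  have e1 : ∀ t : ℝ, ‖Complex.exp (Complex.I * (t : ℂ))‖ = 1 := by
    intro t
    rw [mul_comm]
    exact Complex.norm_exp_ofReal_mul_I t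
  have hsum : ∀ t : Zd d → ℝ, Summable fun x =>
      Complex.exp (Complex.I * ((t x : ℝ) : ℂ)) * ((‖u x‖ ^ 2 : ℝ) : ℂ) := by
    intro t
    refine Summable.of_norm_bounded (g := fun x => ‖u x‖ ^ 2) hu fun x => ?_
    rw [norm_mul, e1, one_mul, Complex.norm_real, Real.norm_of_nonneg (by positivity)]
  -- the square of the kernel
  have h2 : ∀ x, ((‖F x‖ ^ 2 : ℝ) : ℂ) = ∑ k ∈ Finset.range n, ∑ l ∈ Finset.range n,
      Complex.exp (Complex.I * ((((k : ℝ) - l) * θ x : ℝ) : ℂ)) := by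
    intro x
    have h3 : ((‖F x‖ ^ 2 : ℝ) : ℂ) = F x * (starRingEnd ℂ) (F x) := by
      rw [Complex.mul_conj, Complex.normSq_eq_norm_sq]
    rw [h3, hF]
    simp only [map_sum]
    rw [Finset.sum_mul_sum]
    refine Finset.sum_congr rfl fun k _ => Finset.sum_congr rfl fun l _ => ?_
    rw [← Complex.exp_conj, ← Complex.exp_add]
    congr 1
    simp only [map_mul, Complex.conj_I, Complex.conj_ofReal]
    push_cast
    ring
  have h3 : ∀ x ∈ Q, (1 / 4 : ℝ) ≤ ‖F x‖ ^ 2 / n ^ 2 := by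
    intro x hx
    have h4 : ‖(n : ℂ) - F x‖ ≤ n * (1 / 2) := by
      have h5 : (n : ℂ) - F x = ∑ k ∈ Finset.range n,
          (1 - Complex.exp (Complex.I * (((k : ℝ) * θ x : ℝ) : ℂ))) := by
        rw [Finset.sum_sub_distrib, hF]
        simp
      rw [h5]
      refine (norm_sum_le _ _).trans ?_
      have h6 : ∀ k ∈ Finset.range n,
          ‖1 - Complex.exp (Complex.I * (((k : ℝ) * θ x : ℝ) : ℂ))‖ ≤ 1 / 2 := by
        intro k hk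
        rw [norm_sub_rev]
        refine (Real.norm_exp_I_mul_ofReal_sub_one_le (x := (k : ℝ) * θ x)).trans ?_
        rw [Real.norm_eq_abs, abs_mul, Nat.abs_cast]
        have h7 : (k : ℝ) ≤ n := by
          exact_mod_cast (Finset.mem_range.1 hk).le
        calc (k : ℝ) * |θ x| ≤ n * |θ x| := by gcongr
          _ ≤ _ := hQ x hx
      refine (Finset.sum_le_sum h6).trans ?_
      simp
    have h5 : (n : ℝ) / 2 ≤ ‖F x‖ := by
      have h6 := norm_sub_norm_le (n : ℂ) (F x)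
      rw [Complex.norm_natCast] at h6
      linarith
    rw [le_div_iff₀ (by positivity)]
    calc 1 / 4 * (n : ℝ) ^ 2 = ((n : ℝ) / 2) ^ 2 := by ring
      _ ≤ ‖F x‖ ^ 2 := by gcongr
  have hFs : ∀ x, ‖F x‖ ^ 2 / n ^ 2 ≤ 1 := by
    intro x
    have h4 : ‖F x‖ ≤ n := by
      rw [hF]
      refine (norm_sum_le _ _).trans ?_
      simp only [e1]
      simp
    rw [div_le_one (by positivity)]
    gcongr
  have hs1 : Summable fun x => ‖F x‖ ^ 2 / n ^ 2 * ‖u x‖ ^ 2 := by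
    refine Summable.of_nonneg_of_le (fun x => by positivity) (fun x => ?_) hu
    calc ‖F x‖ ^ 2 / n ^ 2 * ‖u x‖ ^ 2 ≤ 1 * ‖u x‖ ^ 2 := by
          gcongr
          exact hFs x
      _ = _ := one_mul _
  have h4 : ∑ x ∈ Q, ‖u x‖ ^ 2 ≤ 4 * ∑' x, ‖F x‖ ^ 2 / n ^ 2 * ‖u x‖ ^ 2 := by
    have h5 : ∑ x ∈ Q, ‖u x‖ ^ 2 ≤ 4 * ∑ x ∈ Q, ‖F x‖ ^ 2 / n ^ 2 * ‖u x‖ ^ 2 := by
      rw [Finset.mul_sum]
      refine Finset.sum_le_sum fun x hx => ?_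
      have h6 := mul_le_mul_of_nonneg_right (h3 x hx) (sq_nonneg ‖u x‖)
      linarith
    refine h5.trans ?_
    gcongr
    exact hs1.sum_le_tsum Q fun x _ => by positivity
  have h5 : ((η * ∑' x, ‖F x‖ ^ 2 / n ^ 2 * ‖u x‖ ^ 2 : ℝ) : ℂ) =
      (1 / (n : ℂ) ^ 2) * ∑ k ∈ Finset.range n, ∑ l ∈ Finset.range n,
        ((η : ℂ) * ∑' x, Complex.exp (Complex.I * ((((k : ℝ) - l) * θ x : ℝ) : ℂ)) *
          ((‖u x‖ ^ 2 : ℝ) : ℂ)) := by
    have h6 : ((∑' x, ‖F x‖ ^ 2 / n ^ 2 * ‖u x‖ ^ 2 : ℝ) : ℂ) =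
        ∑' x, (1 / (n : ℂ) ^ 2) * (∑ k ∈ Finset.range n, ∑ l ∈ Finset.range n,
        Complex.exp (Complex.I * ((((k : ℝ) - l) * θ x : ℝ) : ℂ)) *
          ((‖u x‖ ^ 2 : ℝ) : ℂ)) := by
      rw [Complex.ofReal_tsum]
      refine tsum_congr fun x => ?_
      rw [Complex.ofReal_mul, Complex.ofReal_div, h2 x]
      simp only [← Finset.sum_mul]
      push_cast
      ring
    rw [Complex.ofReal_mul, h6, tsum_mul_left]
    have h8 : ∑' x, ∑ k ∈ Finset.range n, ∑ l ∈ Finset.range n,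
        Complex.exp (Complex.I * ((((k : ℝ) - l) * θ x : ℝ) : ℂ)) * ((‖u x‖ ^ 2 : ℝ) : ℂ) =
        ∑ k ∈ Finset.range n, ∑' x, ∑ l ∈ Finset.range n,
        Complex.exp (Complex.I * ((((k : ℝ) - l) * θ x : ℝ) : ℂ)) * ((‖u x‖ ^ 2 : ℝ) : ℂ) :=
      Summable.tsum_finsetSum fun k _ => summable_sum fun l _ =>
        hsum fun x => ((k : ℝ) - l) * θ x
    rw [h8]
    have h7 : ∀ k ∈ Finset.range n, ∑' x, ∑ l ∈ Finset.range n,
        Complex.exp (Complex.I * ((((k : ℝ) - l) * θ x : ℝ) : ℂ)) * ((‖u x‖ ^ 2 : ℝ) : ℂ) =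
        ∑ l ∈ Finset.range n, ∑' x,
        Complex.exp (Complex.I * ((((k : ℝ) - l) * θ x : ℝ) : ℂ)) * ((‖u x‖ ^ 2 : ℝ) : ℂ) :=
      fun k _ => Summable.tsum_finsetSum fun l _ => hsum fun x => ((k : ℝ) - l) * θ x
    rw [Finset.sum_congr rfl h7]
    simp only [← Finset.mul_sum]
    ring
  have h6 : η * ∑' x, ‖F x‖ ^ 2 / n ^ 2 * ‖u x‖ ^ 2 ≤ P0 / n + P1 := by
    have h7 : 0 ≤ η * ∑' x, ‖F x‖ ^ 2 / n ^ 2 * ‖u x‖ ^ 2 := by
      have : 0 ≤ ∑' x, ‖F x‖ ^ 2 / n ^ 2 * ‖u x‖ ^ 2 := tsum_nonneg fun x => by positivity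
      positivity
    have h8 : η * ∑' x, ‖F x‖ ^ 2 / n ^ 2 * ‖u x‖ ^ 2 =
        ‖((η * ∑' x, ‖F x‖ ^ 2 / n ^ 2 * ‖u x‖ ^ 2 : ℝ) : ℂ)‖ := by
      rw [Complex.norm_real, Real.norm_of_nonneg h7]
    rw [h8, h5, norm_mul]
    have hP00 : 0 ≤ P0 := le_trans (mul_nonneg hη (tsum_nonneg fun x => by positivity)) h0
    have h9 : ‖∑ k ∈ Finset.range n, ∑ l ∈ Finset.range n,
        ((η : ℂ) * ∑' x, Complex.exp (Complex.I * ((((k : ℝ) - l) * θ x : ℝ) : ℂ)) *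
          ((‖u x‖ ^ 2 : ℝ) : ℂ))‖ ≤ ∑ k ∈ Finset.range n, (P0 + n * P1) := by
      refine (norm_sum_le _ _).trans (Finset.sum_le_sum fun k hk => ?_)
      refine (norm_sum_le _ _).trans ?_
      have hk' := Finset.mem_range.1 hk
      have h10 : ∀ l ∈ Finset.range n,
          ‖(η : ℂ) * ∑' x, Complex.exp (Complex.I * ((((k : ℝ) - l) * θ x : ℝ) : ℂ)) *
            ((‖u x‖ ^ 2 : ℝ) : ℂ)‖ ≤ (if k = l then P0 else 0) + P1 := by
        intro l hl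
        by_cases hkl : k = l
        · subst hkl
          rw [if_pos rfl]
          have h11 : (η : ℂ) * ∑' x, Complex.exp (Complex.I * ((((k : ℝ) - k) * θ x : ℝ) : ℂ)) *
              ((‖u x‖ ^ 2 : ℝ) : ℂ) = ((η * ∑' x, ‖u x‖ ^ 2 : ℝ) : ℂ) := by
            rw [Complex.ofReal_mul, Complex.ofReal_tsum]
            congr 1
            refine tsum_congr fun x => ?_
            simp
          rw [h11, Complex.norm_real, Real.norm_of_nonneg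
            (mul_nonneg hη (tsum_nonneg fun x => by positivity))]
          linarith
        · rw [if_neg hkl, zero_add]
          exact h1 k l hk' (Finset.mem_range.1 hl) hkl
      refine (Finset.sum_le_sum h10).trans ?_
      rw [Finset.sum_add_distrib, Finset.sum_ite_eq, if_pos hk]
      simp
    have h10 : ‖(1 / (n : ℂ) ^ 2)‖ = 1 / (n : ℝ) ^ 2 := by
      rw [norm_div, norm_pow, Complex.norm_natCast, norm_one]
    rw [h10]
    refine (mul_le_mul_of_nonneg_left h9 (by positivity)).trans (le_of_eq ?_)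
    rw [Finset.sum_const, Finset.card_range, nsmul_eq_mul]
    field_simp
  calc η * ∑ x ∈ Q, ‖u x‖ ^ 2 ≤ η * (4 * ∑' x, ‖F x‖ ^ 2 / n ^ 2 * ‖u x‖ ^ 2) := by gcongr
    _ = 4 * (η * ∑' x, ‖F x‖ ^ 2 / n ^ 2 * ‖u x‖ ^ 2) := by ring
    _ ≤ _ := by gcongr

end Pool.Agent.Y662.PK
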