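import Pool.Agent.Results.MP_28b024_mp.DiffusionProfile
import Pool.Agent.TH794.LL2.Meas
import Pool.Agent.Y662.PK.Lat
import Pool.Agent.Y662.PK.Count

/-! Delocalization of families of approximate eigenvectors, from the profile of the resolvent. -/

set_option autoImplicit false

open scoped BigOperators InnerProductSpace ENNReal
open MeasureTheory Set

namespace Pool.Agent.Y662.PK

open Pool.Agent.Results.MP_28b024_mp.MobilityEdgeScale (H SqSummable IsSpectralMeasure)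
open Pool.Agent.Results.MP_28b024_mp.DiffusionProfile
open Pool.Agent.TH794.QD (HS hmk hmk_apply Hop Hop_apply Hop_symm hs_sum GF F0 amp0)
open Pool.Agent.TH794.QE (Rs rs_exists)
open Pool.Agent.TH794.LL2 (Po Po_int Po_im K5 int_K5 K5_nonneg)
open Pool.Agent.H4R2.LO (Zd)

/-- the bound for the free Green function -/
noncomputable def C0 (d : ℕ) : ℝ := 80 * 10 ^ d * K5 + 1

theorem C0_pos (d : ℕ) : 0 < C0 d := by
  unfold C0
  have := K5_nonneg
  positivity

theorem g0_le (d : ℕ) (hd : 3 ≤ d) (E : ℝ) : (g0 d E).im ≤ C0 d := by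
  have h := amp0 Pool.Agent.W918.BK.Osc.osc d hd
  have h1 : ‖GF (F0 d) E‖ ≤ 80 * 10 ^ d * K5 := by
    unfold GF
    rw [norm_mul, Complex.norm_I, one_mul]
    refine (norm_integral_le_integral_norm _).trans ?_
    unfold K5
    rw [← integral_const_mul]
    refine setIntegral_mono_on (h.int (z := (E : ℂ)) (by simp)).norm
      (int_K5.const_mul _) measurableSet_Ioi fun s hs => ?_
    have hs0 : (0 : ℝ) < s := hs
    rw [norm_mul]
    calc ‖F0 d s‖ * ‖Complex.exp (Complex.I * (E : ℂ) * s)‖ ≤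
          (80 * 10 ^ d * (s + 1) ^ (-(5 / 4) : ℝ)) * 1 :=
          mul_le_mul (h.dec s hs0.le)
            (Pool.Agent.TH794.QD.exp_norm_le (by simp) hs0.le) (norm_nonneg _) (by positivity)
      _ = _ := mul_one _
  rw [g0_eq]
  unfold C0
  have h2 := (Complex.im_le_norm (GF (F0 d) E)).trans h1
  linarith

/-- the lower bound for the measure of an interval from two Poisson integrals -/
theorem meas_lower (m : Measure ℝ) [IsFiniteMeasure m] (e η η' : ℝ) (hη' : 0 < η') (hη : η' ≤ η) :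
    η' * (Po m e η' - 2 * (η' / η) * Po m e η) ≤ m.real (Icc (e - η) (e + η)) := by
  have hη0 : 0 < η := hη'.trans_le hη
  have h1 : Po m e η' ≤ (1 / η') * m.real (Icc (e - η) (e + η)) + 2 * (η' / η) * Po m e η := by
    have h2 : ∀ x : ℝ, η' / ((x - e) ^ 2 + η' ^ 2) ≤
        (Icc (e - η) (e + η)).indicator (fun _ => 1 / η') x +
          2 * (η' / η) * (η / ((x - e) ^ 2 + η ^ 2)) := by
      intro x
      have h3 : 2 * (η' / η) * (η / ((x - e) ^ 2 + η ^ 2)) = 2 * η' / ((x - e) ^ 2 + η ^ 2) := by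
        field_simp
      rw [h3]
      by_cases hx : x ∈ Icc (e - η) (e + η)
      · rw [indicator_of_mem hx]
        have h4 : η' / ((x - e) ^ 2 + η' ^ 2) ≤ 1 / η' := by
          rw [div_le_div_iff₀ (by positivity) hη']
          nlinarith [sq_nonneg (x - e)]
        have h5 : 0 ≤ 2 * η' / ((x - e) ^ 2 + η ^ 2) := by positivity
        linarith
      · rw [indicator_of_notMem hx, zero_add]
        have h4 : η ^ 2 ≤ (x - e) ^ 2 := by
          by_contra hcon
          push Not at hcon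
          have h5 := abs_lt_of_sq_lt_sq hcon hη0.le
          rw [abs_lt] at h5
          exact hx ⟨by linarith [h5.1], by linarith [h5.2]⟩
        rw [div_le_div_iff₀ (by positivity) (by positivity)]
        nlinarith [sq_nonneg η']
    have i1 : Integrable ((Icc (e - η) (e + η)).indicator fun _ : ℝ => 1 / η') m :=
      (integrable_const _).indicator measurableSet_Icc
    have i2 := Po_int m e η hη0
    have h3 := integral_mono (Po_int m e η' hη') (i1.add (i2.const_mul (2 * (η' / η)))) h2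
    simp only [Pi.add_apply] at h3
    rw [integral_add i1 (i2.const_mul _), integral_const_mul,
      integral_indicator_const _ measurableSet_Icc, smul_eq_mul] at h3
    unfold Po
    linarith
  have h2 : η' * Po m e η' ≤ m.real (Icc (e - η) (e + η)) + η' * (2 * (η' / η) * Po m e η) := by
    have h3 := mul_le_mul_of_nonneg_left h1 hη'.le
    rw [mul_add, ← mul_assoc, mul_one_div_cancel hη'.ne', one_mul] at h3
    exact h3
  linarith

/-- the Ward identity -/
theorem ward {d : ℕ} (V : Zd d → ℝ) (B : ℝ) (hV : ∀ x, |V x| ≤ B) (a : Zd d) (e η : ℝ)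
    (u : Zd d → ℂ) (hu : Rs d V a e η u) : (u a).im = η * ∑' x, ‖u x‖ ^ 2 := by
  have hB : 0 ≤ B := (abs_nonneg _).trans (hV 0)
  have h1 := res_im (Hop V B hB hV : HS d →ₗ[ℂ] HS d) (fun w v => Hop_symm V B hB hV w v) e η
    (hmk u hu.sq) (dl a) (green_eq V B hB hV a e η u hu)
  rw [inner_dl, hmk_apply] at h1
  rw [h1, (hs_sum (hmk u hu.sq)).tsum_eq.symm]
  rfl

/-- the conversion of the hypothesis -/
theorem near_conv {d n : ℕ} (lam : ℝ) (ω : Zd d → ℝ) (B : ℝ) (hB : 0 ≤ B)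
    (hV : ∀ x, |2 * (d : ℝ) + lam * ω x| ≤ B) (e η : ℝ) (hη : 0 ≤ η)
    (u : Fin n → Zd d → ℂ) (hs : ∀ j, Summable fun x => ‖u j x‖ ^ 2)
    (ho : ∀ j k, ∑' x, (starRingEnd ℂ) (u j x) * u k x = if j = k then 1 else 0)
    (hn : ∀ c : Fin n → ℂ, ∑' x, ‖∑ j, c j * (H lam ω (u j) x - e * u j x)‖ ^ 2 ≤
      η ^ 2 * ∑ j, ‖c j‖ ^ 2) :
    Orthonormal ℂ (fun j => hmk (u j) (hs j)) ∧
    ∀ c : Fin n → ℂ, ‖(Hop (fun x => 2 * (d : ℝ) + lam * ω x) B hB hV : HS d →ₗ[ℂ] HS d)
      (∑ j, c j • hmk (u j) (hs j)) - (e : ℂ) • ∑ j, c j • hmk (u j) (hs j)‖ ≤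
      η * ‖∑ j, c j • hmk (u j) (hs j)‖ := by
  have hH : ∀ (w : Zd d → ℂ) (x : Zd d), H lam ω w x =
      -Pool.Agent.W788.LD.Spec.S w x + ((2 * d + lam * ω x : ℝ) : ℂ) * w x := by
    intro w x
    unfold H Pool.Agent.W788.LD.Spec.S
    have h2 : ∑ i : Fin d, ((w (x + Pi.single i 1) - w x) + (w (x - Pi.single i 1) - w x)) =
        ∑ i : Fin d, (w (x + Pi.single i 1) + w (x - Pi.single i 1)) - 2 * (d : ℂ) * w x := by
      rw [Finset.sum_add_distrib, Finset.sum_sub_distrib, Finset.sum_sub_distrib,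
        Finset.sum_add_distrib]
      simp
      ring
    rw [h2]
    push_cast
    ring
  have hin : ∀ f g : HS d, ⟪f, g⟫_ℂ = ∑' x, (starRingEnd ℂ) (f x) * g x := by
    intro f g
    rw [(lp.hasSum_inner (𝕜 := ℂ) f g).tsum_eq.symm]
    refine tsum_congr fun x => ?_
    rw [RCLike.inner_apply, mul_comm]
  have hor : Orthonormal ℂ (fun j => hmk (u j) (hs j)) := by
    rw [orthonormal_iff_ite]
    intro j k
    rw [hin]
    exact ho j k
  refine ⟨hor, fun c => ?_⟩
  have h1 : ‖∑ j, c j • hmk (u j) (hs j)‖ ^ 2 = ∑ j, ‖c j‖ ^ 2 := by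
    have h2 := hor.inner_sum c c Finset.univ
    rw [inner_self_eq_norm_sq_to_K] at h2
    have h3 : ((‖∑ j, c j • hmk (u j) (hs j)‖ ^ 2 : ℝ) : ℂ) = ((∑ j, ‖c j‖ ^ 2 : ℝ) : ℂ) := by
      push_cast
      refine Eq.trans ?_ (h2.trans ?_)
      · simp
      · refine Finset.sum_congr rfl fun j _ => ?_
        rw [← Complex.normSq_eq_conj_mul_self, Complex.normSq_eq_norm_sq]
        push_cast
        ring
    exact_mod_cast h3
  obtain ⟨w, hw⟩ : ∃ w, w = (Hop (fun x => 2 * (d : ℝ) + lam * ω x) B hB hV : HS d →ₗ[ℂ] HS d)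
      (∑ j, c j • hmk (u j) (hs j)) - (e : ℂ) • ∑ j, c j • hmk (u j) (hs j) := ⟨_, rfl⟩
  have h2 : ∀ x, w x = ∑ j, c j * (H lam ω (u j) x - e * u j x) := by
    intro x
    have h3 : w = ∑ j, c j • (Hop (fun x => 2 * (d : ℝ) + lam * ω x) B hB hV (hmk (u j) (hs j)) -
        (e : ℂ) • hmk (u j) (hs j)) := by
      rw [hw, map_sum, Finset.smul_sum, ← Finset.sum_sub_distrib]
      refine Finset.sum_congr rfl fun j _ => ?_
      rw [map_smul, smul_sub, smul_comm]
      rfl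
    rw [h3, ← Pool.Agent.TH794.QD.evl_apply x, map_sum]
    refine Finset.sum_congr rfl fun j _ => ?_
    rw [map_smul, map_sub, map_smul, Pool.Agent.TH794.QD.evl_apply,
      Pool.Agent.TH794.QD.evl_apply, Hop_apply, hH, smul_eq_mul, smul_eq_mul]
    rfl
  rw [← hw]
  have h3 : ‖w‖ ^ 2 ≤ (η * ‖∑ j, c j • hmk (u j) (hs j)‖) ^ 2 := by
    rw [mul_pow, h1, ← (hs_sum w).tsum_eq]
    refine le_trans (le_of_eq ?_) (hn c)
    exact tsum_congr fun x => by rw [h2]
  exact (pow_le_pow_iff_left₀ (norm_nonneg _) (by positivity) two_ne_zero).1 h3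

/-- **the main theorem** -/
theorem main (d : ℕ) (hd : 3 ≤ d) (κ : ℝ) (hκ : 0 < κ) (hκ1 : κ ≤ 1) :
    ∃ c0 : ℝ, 0 < c0 ∧ ∀ b v ε : ℝ, 0 < b → 0 < v → 0 < ε → ∃ c lam0 : ℝ, 0 < c ∧ 0 < lam0 ∧
      ∀ (μ : Measure ℝ) [IsProbabilityMeasure μ], (∀ᵐ s ∂μ, |s| ≤ b) →
      ∀ M V : ℝ, ∫ s, s ∂μ = M → ∫ s, (s - M) ^ 2 ∂μ = V → v ≤ V →
      ∀ lam : ℝ, 0 < lam → lam ≤ lam0 →
      ∃ G : Set (Zd d → ℝ), MeasurableSet G ∧
        1 - Real.exp (-lam ^ (-(1 / 101) : ℝ)) ≤
          (Measure.infinitePi fun _ : Zd d => μ).real G ∧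
        ∀ ω ∈ G, ∀ e : ℝ, κ + lam * M ≤ e → e ≤ 4 * d - κ + lam * M →
          ∀ η : ℝ, lam ^ (83 / 41 : ℝ) ≤ η → η ≤ lam ^ (161 / 80 : ℝ) →
            (∀ a : Zd d, ‖a‖ ≤ Real.exp (lam ^ (-(1 / 101) : ℝ)) →
              ∀ m : Measure ℝ, IsSpectralMeasure (H lam ω) (Pi.single a 1) m →
                c0 * η ≤ m.real (Icc (e - η) (e + η))) ∧
            ∀ Λ : Finset (Zd d), (∀ a ∈ Λ, ‖a‖ ≤ Real.exp (lam ^ (-(1 / 101) : ℝ))) →
              ∀ (n : ℕ) (u : Fin n → Zd d → ℂ), (∀ j, SqSummable (u j)) →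
                (∀ j k, ∑' x, (starRingEnd ℂ) (u j x) * u k x = if j = k then 1 else 0) →
                (∀ c : Fin n → ℂ, ∑' x, ‖∑ j, c j * (H lam ω (u j) x - e * u j x)‖ ^ 2 ≤
                  η ^ 2 * ∑ j, ‖c j‖ ^ 2) →
                (∀ j, ∃ i : Fin d, ∃ Q ⊆ Λ,
                  (∀ x ∈ Q, ∀ y ∈ Q, |(x i : ℝ) - y i| ≤ c / Real.sqrt (η * (lam ^ 2 * V))) ∧
                  ε ≤ ∑ x ∈ Q, ‖u j x‖ ^ 2) →
                (n : ℝ) ≤ ε * η * Λ.card := by
  obtain ⟨⟨m0, hm0, hg⟩, hmain⟩ :=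
    Pool.Agent.Results.MP_28b024_mp.DiffusionProfile.result d hd κ hκ hκ1
  obtain ⟨C, hC⟩ : ∃ C, C = C0 d := ⟨_, rfl⟩
  have hC1 : 0 < C := by rw [hC]; exact C0_pos d
  have hgC : ∀ E, (g0 d E).im ≤ C := fun E => by rw [hC]; exact g0_le d hd E
  obtain ⟨δ, hδ⟩ : ∃ δ : ℝ, δ = min 1 (m0 / (8 * (C + 1))) := ⟨_, rfl⟩
  have hδ0 : 0 < δ := by rw [hδ]; exact lt_min one_pos (by positivity)
  have hδ1 : δ ≤ 1 := by rw [hδ]; exact min_le_left _ _
  have hδ2 : δ * (8 * (C + 1)) ≤ m0 := by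
    have h1 : δ ≤ m0 / (8 * (C + 1)) := by rw [hδ]; exact min_le_right _ _
    rwa [le_div_iff₀ (by positivity)] at h1
  refine ⟨δ * (m0 / 4), by positivity, fun b v ε hb hv hε => ?_⟩
  have hd0 : (0 : ℝ) < d := by exact_mod_cast (by omega : 0 < d)
  -- parameters
  obtain ⟨τ, hτ⟩ : ∃ τ : ℝ, τ = ε ^ 3 / (192 * d) := ⟨_, rfl⟩
  have hτ0 : 0 < τ := by rw [hτ]; positivity
  obtain ⟨D0, hD0⟩ : ∃ D0 : ℝ, D0 = m0 / C ^ 2 := ⟨_, rfl⟩
  have hD00 : 0 < D0 := by rw [hD0]; positivity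
  obtain ⟨n, hn⟩ := exists_nat_gt ((C + 1) / τ)
  have hn0 : (0 : ℝ) < n := lt_of_le_of_lt (by positivity) hn
  have hnN : 0 < n := by exact_mod_cast hn0
  have hn1 : (C + 1) / n ≤ τ := by
    rw [div_lt_iff₀ hτ0] at hn
    rw [div_le_iff₀ hn0]
    linarith
  obtain ⟨s, hs⟩ : ∃ s : ℝ, s = Real.sqrt (C / (D0 * τ)) + 1 := ⟨_, rfl⟩
  have hs0 : 0 < s := by rw [hs]; positivity
  have hs1 : C / (1 + D0 * s ^ 2) ≤ τ := by
    have h1 : C / (D0 * τ) ≤ s ^ 2 := by
      have h2 := Real.sq_sqrt (show 0 ≤ C / (D0 * τ) by positivity)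
      have h3 := Real.sqrt_nonneg (C / (D0 * τ))
      rw [hs]
      nlinarith
    rw [div_le_iff₀ (by positivity)] at h1
    rw [div_le_iff₀ (by positivity)]
    nlinarith
  obtain ⟨l1, hl1, hrest⟩ := hmain b v ((n * s) ^ 2) hb hv (by positivity)
  -- small coupling
  have hsmall : ∃ l2 : ℝ, 0 < l2 ∧ ∀ lam : ℝ, 0 < lam → lam ≤ l2 →
      lam ^ (1 / 200 : ℝ) ≤ min (min τ 1) (m0 / 2) ∧ lam ^ (81 / 40 : ℝ) ≤ δ * lam ^ (83 / 41 : ℝ) := by
    have hx : 0 < min (min τ 1) (m0 / 2) := by positivity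
    refine ⟨min ((min (min τ 1) (m0 / 2)) ^ (200 : ℝ)) (δ ^ (1640 : ℝ)), by positivity,
      fun lam h0 h1 => ⟨?_, ?_⟩⟩
    · have h2 := Real.rpow_le_rpow h0.le (h1.trans (min_le_left _ _))
        (show (0 : ℝ) ≤ 1 / 200 by norm_num)
      rw [← Real.rpow_mul hx.le] at h2
      norm_num at h2 ⊢
      exact h2
    · have h2 := Real.rpow_le_rpow h0.le (h1.trans (min_le_right _ _))
        (show (0 : ℝ) ≤ 1 / 1640 by norm_num)
      rw [← Real.rpow_mul hδ0.le] at h2
      have h3 : lam ^ (81 / 40 : ℝ) = lam ^ (1 / 1640 : ℝ) * lam ^ (83 / 41 : ℝ) := by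
        rw [← Real.rpow_add h0]
        norm_num
      rw [h3]
      norm_num at h2 ⊢
      gcongr
  obtain ⟨l2, hl2, hsm⟩ := hsmall
  refine ⟨1 / (2 * n * s), min l1 l2, by positivity, lt_min hl1 hl2, ?_⟩
  intro μ hμ hμb M V hM hV hvV lam hlam hlam0
  have hV0 : 0 < V := hv.trans_le hvV
  obtain ⟨G, hG, hP, hgood⟩ := hrest μ hμb M V hM hV hvV lam hlam (hlam0.trans (min_le_left _ _))
  obtain ⟨hs1', hs2'⟩ := hsm lam hlam (hlam0.trans (min_le_right _ _))
  have hb1 : MeasurableSet {ω : Zd d → ℝ | ∀ x, |ω x| ≤ b} := by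
    rw [Set.setOf_forall]
    exact MeasurableSet.iInter fun x => measurableSet_le (by fun_prop) measurable_const
  have hb2 : ∀ᵐ ω ∂(Measure.infinitePi fun _ : Zd d => μ), ∀ x, |ω x| ≤ b := by
    rw [ae_all_iff]
    intro x
    exact (measurePreserving_eval_infinitePi (fun _ : Zd d => μ) x).quasiMeasurePreserving.ae hμb
  refine ⟨G ∩ {ω | ∀ x, |ω x| ≤ b}, hG.inter hb1, ?_, ?_⟩
  · refine hP.trans (le_of_eq ?_)
    rw [measureReal_def, measureReal_def]
    congr 1
    refine measure_congr ?_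
    filter_upwards [hb2] with ω hω
    apply propext
    exact ⟨fun h => ⟨h, hω⟩, fun h => h.1⟩
  intro ω hω e he1 he2 η hη1 hη2
  obtain ⟨hωG, hωb⟩ := hω
  have hωb : ∀ x, |ω x| ≤ b := hωb
  have hη0 : 0 < η := lt_of_lt_of_le (Real.rpow_pos_of_pos hlam _) hη1
  have hη3 : lam ^ (81 / 40 : ℝ) ≤ δ * η := hs2'.trans (by gcongr)
  have hη4 : lam ^ (81 / 40 : ℝ) ≤ η := hη3.trans (by nlinarith)
  obtain ⟨B, hB⟩ : ∃ B : ℝ, B = 2 * d + lam * b := ⟨_, rfl⟩
  have hB0 : 0 ≤ B := by rw [hB]; positivity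
  have hVb : ∀ x, |2 * (d : ℝ) + lam * ω x| ≤ B := by
    intro x
    rw [hB]
    refine (abs_add_le _ _).trans ?_
    rw [abs_of_nonneg (by positivity : (0 : ℝ) ≤ 2 * d), abs_mul, abs_of_pos hlam]
    have := mul_le_mul_of_nonneg_left (hωb x) hlam.le
    linarith
  have hE : |2 * (d : ℝ) + lam * M - e| ≤ 2 * d - κ := by
    rw [abs_le]
    constructor <;> linarith
  obtain ⟨hg1, hg2⟩ := hg _ hE
  have hg3 := hgC (2 * d + lam * M - e)
  have hgpos : 0 < (g0 d (2 * d + lam * M - e)).im := by linarith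
  have hDlow : D0 ≤ D d (2 * d + lam * M - e) := by
    have hg4 : 0 ≤ (g1 d (2 * d + lam * M - e)).im := hm0.le.trans hg1
    unfold D
    rw [hD0]
    gcongr
  have hsd : lam ^ (1 / 200 : ℝ) ≤ τ := hs1'.trans ((min_le_left _ _).trans (min_le_left _ _))
  have hsd1 : lam ^ (1 / 200 : ℝ) ≤ 1 := hs1'.trans ((min_le_left _ _).trans (min_le_right _ _))
  have hsd2 : lam ^ (1 / 200 : ℝ) ≤ m0 / 2 := hs1'.trans (min_le_right _ _)
  -- the profile at `q = 0`
  have hzero : ∀ a : Zd d, ‖a‖ ≤ Real.exp (lam ^ (-(1 / 101) : ℝ)) → ∀ η' : ℝ,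
      lam ^ (81 / 40 : ℝ) ≤ η' → η' ≤ lam ^ (161 / 80 : ℝ) → ∀ u, IsGreen lam ω a e η' u →
      |η' * ∑' x, ‖u x‖ ^ 2 - (g0 d (2 * d + lam * M - e)).im| ≤ lam ^ (1 / 200 : ℝ) := by
    intro a ha η' h1 h2 u hu
    have h3 := (hgood ω hωG a ha e he1 he2 η' h1 h2).2 u hu (fun _ => 0) (by
      simp only [ne_eq, OfNat.ofNat_ne_zero, not_false_eq_true, zero_pow, Finset.sum_const_zero]
      positivity)
    have h4 : (η' : ℂ) * ∑' x, Complex.exp (Complex.I *
        ((Real.sqrt (η' * (lam ^ 2 * V)) * ∑ i : Fin d, (0 : ℝ) * ((x i : ℝ) - a i) : ℝ) : ℂ)) *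
        ((‖u x‖ ^ 2 : ℝ) : ℂ) = ((η' * ∑' x, ‖u x‖ ^ 2 : ℝ) : ℂ) := by
      rw [Complex.ofReal_mul, Complex.ofReal_tsum]
      congr 1
      refine tsum_congr fun x => ?_
      simp
    rw [h4] at h3
    simp only [ne_eq, OfNat.ofNat_ne_zero, not_false_eq_true, zero_pow, Finset.sum_const_zero,
      mul_zero, add_zero, div_one] at h3
    rw [← Complex.ofReal_sub, Complex.norm_real, Real.norm_eq_abs] at h3
    exact h3
  refine ⟨?_, ?_⟩
  · -- the lower bound
    intro a ha m hm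
    have hfin : IsFiniteMeasure m := hm.1
    have key : ∀ η' : ℝ, lam ^ (81 / 40 : ℝ) ≤ η' → η' ≤ lam ^ (161 / 80 : ℝ) →
        |Po m e η' - (g0 d (2 * d + lam * M - e)).im| ≤ lam ^ (1 / 200 : ℝ) := by
      intro η' h1 h2
      have hη'0 : 0 < η' := lt_of_lt_of_le (Real.rpow_pos_of_pos hlam _) h1
      obtain ⟨u, hu1, hu2, hu3⟩ := hm.2 ((e : ℂ) + (η' : ℂ) * Complex.I) (by simp [hη'0.ne'])
      have hgr : IsGreen lam ω a e η' u := ⟨hu1, fun x => by
        rw [hu2 x]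
        by_cases hxa : x = a
        · subst hxa
          simp
        · rw [if_neg hxa, Pi.single_eq_of_ne hxa]⟩
      have h3 := hzero a ha η' h1 h2 u hgr
      have h4 := ward (fun x => 2 * (d : ℝ) + lam * ω x) B hVb a e η' u
        ((green_iff lam ω a e η' u).1 hgr)
      rw [← h4] at h3
      have h5 : ∑' x, (starRingEnd ℂ) ((Pi.single a 1 : Zd d → ℂ) x) * u x = u a := by
        rw [tsum_eq_single a]
        · simp
        · intro x hx
          rw [Pi.single_eq_of_ne hx]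
          simp
      rw [h5] at hu3
      rw [← Po_im m e η' hη'0, hu3]
      exact h3
    have h1 := key η hη4 hη2
    have h2 := key (δ * η) hη3 (le_trans (by nlinarith) hη2)
    have h3 := meas_lower m e η (δ * η) (by positivity) (by nlinarith)
    rw [abs_le] at h1 h2
    have h4 : δ * η / η = δ := by field_simp
    rw [h4] at h3
    have h5 : m0 / 4 ≤ Po m e (δ * η) - 2 * δ * Po m e η := by
      have h6 : Po m e η ≤ C + 1 := by linarith
      have h7 : 2 * δ * Po m e η ≤ 2 * δ * (C + 1) := by gcongr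
      nlinarith
    calc δ * (m0 / 4) * η = (δ * η) * (m0 / 4) := by ring
      _ ≤ (δ * η) * (Po m e (δ * η) - 2 * δ * Po m e η) := by gcongr
      _ ≤ _ := h3
  · -- the counting
    intro Λ hΛ n' u hu ho hnear hloc
    obtain ⟨r, hr⟩ : ∃ r, r = Real.sqrt (η * (lam ^ 2 * V)) := ⟨_, rfl⟩
    have hr0 : 0 < r := by rw [hr]; positivity
    rw [← hr] at hloc
    obtain ⟨R, hR⟩ : ∃ R, R = 1 / (2 * n * s) / r := ⟨_, rfl⟩
    have hR0 : 0 < R := by rw [hR]; positivity
    rw [← hR] at hloc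
    choose Gr hGr using fun a : Zd d => rs_exists (fun x => 2 * (d : ℝ) + lam * ω x) B hVb a e η hη0
    obtain ⟨hor, hnr⟩ := near_conv lam ω B hB0 hVb e η hη0.le u hu ho hnear
    have hcell : ∀ (i : Fin d) (Q : Finset (Zd d)), Q ⊆ Λ →
        (∀ x ∈ Q, ∀ y ∈ Q, |(x i : ℝ) - y i| ≤ R) →
        ∑ j, (∑ x ∈ Q, ‖u j x‖ ^ 2) ^ 2 ≤ (48 * η * τ) * Q.card := by
      intro i Q hQ hw
      have h1 := window (fun x => 2 * (d : ℝ) + lam * ω x) B hB0 hVb e η hη0.le
        (fun j => hmk (u j) (hu j)) hor hnr Q Gr hGr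
      have h2 : ∀ a ∈ Q, η * ∑ x ∈ Q, ‖Gr a x‖ ^ 2 ≤ 12 * τ := by
        intro a ha
        have hgr : IsGreen lam ω a e η (Gr a) := (green_iff lam ω a e η (Gr a)).2 (hGr a)
        have h3 := slab (Gr a) (hGr a).sq (fun x => s * r * ((x i : ℝ) - a i)) η hη0.le n hnN
          (C + 1) (C / (1 + D0 * s ^ 2) + lam ^ (1 / 200 : ℝ)) (by positivity)
          (by
            have h4 := hzero a (hΛ a (hQ ha)) η hη4 hη2 (Gr a) hgr
            rw [abs_le] at h4
            linarith [h4.2])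
          (fun k l hk hl hkl => by
            have hkl2 : (1 : ℝ) ≤ ((k : ℝ) - l) ^ 2 := by
              have h5 : (1 : ℤ) ≤ ((k : ℤ) - l) ^ 2 := by
                have h6 : ((k : ℤ) - l) ≠ 0 := by omega
                have h7 : 0 < ((k : ℤ) - l) ^ 2 := by positivity
                omega
              exact_mod_cast h5
            have hkl3 : ((k : ℝ) - l) ^ 2 ≤ (n : ℝ) ^ 2 := by
              have h5 : |(k : ℝ) - l| ≤ |(n : ℝ)| := by
                rw [abs_of_pos hn0, abs_le]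
                have h6 : (k : ℝ) < n := by exact_mod_cast hk
                have h7 : (l : ℝ) < n := by exact_mod_cast hl
                have h8 : (0 : ℝ) ≤ k := Nat.cast_nonneg k
                have h9 : (0 : ℝ) ≤ l := Nat.cast_nonneg l
                constructor <;> linarith
              exact sq_le_sq.2 h5
            obtain ⟨q, hq⟩ : ∃ q : Fin d → ℝ, q = fun j => if j = i then ((k : ℝ) - l) * s else 0 :=
              ⟨_, rfl⟩
            have hq2 : ∑ j, q j ^ 2 = (((k : ℝ) - l) * s) ^ 2 := by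
              rw [hq, Finset.sum_eq_single i]
              · simp
              · intro j _ hj
                simp [hj]
              · intro h
                exact absurd (Finset.mem_univ i) h
            have hq3 : ∀ x : Zd d, ∑ j, q j * ((x j : ℝ) - a j) =
                ((k : ℝ) - l) * s * ((x i : ℝ) - a i) := by
              intro x
              rw [hq, Finset.sum_eq_single i]
              · simp
              · intro j _ hj
                simp [hj]
              · intro h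
                exact absurd (Finset.mem_univ i) h
            have h5 := (hgood ω hωG a (hΛ a (hQ ha)) e he1 he2 η hη4 hη2).2 (Gr a) hgr q (by
              rw [hq2, mul_pow, mul_pow]
              gcongr)
            simp only [hq3, hq2, ← hr] at h5
            have h6 : ∀ x : Zd d, r * (((k : ℝ) - l) * s * ((x i : ℝ) - a i)) =
                ((k : ℝ) - l) * (s * r * ((x i : ℝ) - a i)) := fun x => by ring
            simp only [h6] at h5
            have h7 := norm_le_norm_add_norm_sub'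
              ((η : ℂ) * ∑' x, Complex.exp (Complex.I *
                ((((k : ℝ) - l) * (s * r * ((x i : ℝ) - a i)) : ℝ) : ℂ)) *
                ((‖Gr a x‖ ^ 2 : ℝ) : ℂ))
              (((g0 d (2 * d + lam * M - e)).im /
                (1 + D d (2 * d + lam * M - e) * (((k : ℝ) - l) * s) ^ 2) : ℝ) : ℂ)
            refine h7.trans (add_le_add ?_ h5)
            rw [Complex.norm_real, Real.norm_of_nonneg (by
              have : 0 ≤ D d (2 * d + lam * M - e) := hD00.le.trans hDlow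
              positivity)]
            have hDn : 0 ≤ D d (2 * d + lam * M - e) := hD00.le.trans hDlow
            have h8 : D0 * s ^ 2 ≤ D d (2 * d + lam * M - e) * (((k : ℝ) - l) * s) ^ 2 := by
              rw [mul_pow]
              calc D0 * s ^ 2 = D0 * (1 * s ^ 2) := by ring
                _ ≤ D d (2 * d + lam * M - e) * (((k : ℝ) - l) ^ 2 * s ^ 2) := by gcongr
            gcongr)
          Q (fun x hx => by
            have h4 := hw x hx a ha
            rw [abs_mul, abs_of_pos (by positivity : 0 < s * r)]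
            calc (n : ℝ) * (s * r * |(x i : ℝ) - a i|) ≤ n * (s * r * R) := by gcongr
              _ = 1 / 2 := by
                  rw [hR]
                  field_simp
              _ ≤ _ := le_refl _)
        refine h3.trans ?_
        linarith
      have h3 : 4 * η ^ 2 * ∑ a ∈ Q, ∑ x ∈ Q, ‖Gr a x‖ ^ 2 =
          4 * η * ∑ a ∈ Q, η * ∑ x ∈ Q, ‖Gr a x‖ ^ 2 := by
        rw [← Finset.mul_sum]
        ring
      have h4 : ∑ a ∈ Q, η * ∑ x ∈ Q, ‖Gr a x‖ ^ 2 ≤ ∑ a ∈ Q, 12 * τ := Finset.sum_le_sum h2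
      rw [Finset.sum_const, nsmul_eq_mul] at h4
      rw [h3] at h1
      refine h1.trans ?_
      calc 4 * η * ∑ a ∈ Q, η * ∑ x ∈ Q, ‖Gr a x‖ ^ 2 ≤ 4 * η * (Q.card * (12 * τ)) := by gcongr
        _ = _ := by ring
    have h1 := count Λ (fun j x => ‖u j x‖ ^ 2) (fun j x => by positivity) ε R (48 * η * τ) hε hR0
      hcell hloc
    have h2 : 4 * d * (48 * η * τ) * Λ.card = ε ^ 2 * (ε * η * Λ.card) := by
      rw [hτ]
      field_simp
      ring
    rw [h2, mul_comm] at h1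
    exact le_of_mul_le_mul_left h1 (by positivity)

end Pool.Agent.Y662.PK
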